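import Pool.Agent.Run7.h593.Bounds2
import Pool.Agent.Run7.h593.Algo2Poly

set_option autoImplicit false

/-!
# Polynomial-time approximation of the black pebbling number below the trivial factor
-/

open Pool.Agent.NPC Run7.h593

/-- For every `ε > 0`, some polynomial-time algorithm, given a directed acyclic graph `G` with `n`
nodes and a single sink, computes a number `a ≥ Peb(G)` which, if `n` is large, is at most
`ρ · Peb(G)` with `ρ = ε · (n / log n) · min (1, (d / log n) · log (2 + log n / d))`, where `d` is any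
bound for the indegrees of `G`. -/
theorem Pool.Agent.Results.MP_ecb870_lc.BelowHPV.result :
    ∀ ε : ℝ, 0 < ε → ∃ (f : List Bool → List Bool) (n₀ : ℕ), PolyTime f ∧
      ∀ (G : List (List ℕ)) (t d : ℕ), IsInstance G t → (∀ l ∈ G, l.length ≤ d) →
        ∃ a : ℕ, f (bits G) = bits a ∧ Peb G t ≤ a ∧
          (n₀ ≤ G.length → (a : ℝ) ≤ ε * (G.length / Real.log G.length) *
            min 1 (d / Real.log G.length * Real.log (2 + Real.log G.length / d)) * Peb G t) := by
  intro ε hε
  obtain ⟨c, n₀, h⟩ := algo2_ratio hε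
  obtain ⟨f, hf, hfa⟩ := polyTime_algo2 c
  refine ⟨f, n₀, hf, fun G t d hG hd => ⟨algo2 c G, hfa G, ?_⟩⟩
  have h1 : algo2 c G ∈ {k | CanPebble G t k} := canPebble_algo2 hG c
  refine ⟨Nat.sInf_le h1, fun hn => ?_⟩
  have h2 : CanPebble G t (Peb G t) := Nat.sInf_mem ⟨_, h1⟩
  exact h G t (Peb G t) d hG h2 hd hn
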