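import Pool.Agent.Run7.h593.HardMain

set_option autoImplicit false

/-!
# Approximating the black pebbling number within some constant factor is `NP`-hard

The pebble game (`Move`, `CanPebble`, `Peb`, `IsInstance`) is defined in
`Pool/Agent/Run7/h593/Defs.lean`; `NP` (`InNP`), polynomial time (`PolyTime`) and the coding `bits`
of structured data by bit strings are defined in `Pool/Agent/NPC/Defs.lean`.
-/

namespace Pool.Agent.Results.MP_ecb870_lc.ConstFactorNPHard

open Run7.h593 Pool.Agent.NPC

/-- For some constant `c > 1`, approximating the black pebbling number within the factor `c` is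
`NP`-hard: for every language `L` in `NP` there is a polynomial-time function `g` that maps every
word `x` to a directed acyclic graph `G` with the single sink `t` and a number `s` such that `G` has
pebbling number at most `s` if `x` is in `L`, and pebbling number more than `c * s`, and at least
`s + (c - 1) * n`, where `n` is the number of nodes, if `x` is not in `L`. -/
theorem result : ∃ c : ℝ, 1 < c ∧ ∀ L : Set (List Bool), InNP L →
    ∃ g : List Bool → List Bool, PolyTime g ∧
      ∀ x, ∃ (G : List (List ℕ)) (t s : ℕ), g x = bits (G, t, s) ∧ IsInstance G t ∧
        (x ∈ L → Peb G t ≤ s) ∧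
        (x ∉ L → c * (s : ℝ) < Peb G t ∧ (s : ℝ) + (c - 1) * G.length ≤ Peb G t) :=
  hard

end Pool.Agent.Results.MP_ecb870_lc.ConstFactorNPHard
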