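import Pool.Agent.Run7.h593.BMain

set_option autoImplicit false

/-!
# Approximating the black pebbling number of graphs with indegree at most two within some constant
factor is `NP`-hard

The pebble game (`Move`, `CanPebble`, `Peb`, `IsInstance`) is defined in
`Pool/Agent/Run7/h593/Defs.lean`; `NP` (`InNP`), polynomial time (`PolyTime`) and the coding `bits`
of structured data by bit strings are defined in `Pool/Agent/NPC/Defs.lean`.
-/

namespace Pool.Agent.Results.MP_ecb870_lc.IndegTwoNPHard

open Run7.h593 Pool.Agent.NPC

/-- For some constant `c > 1`, approximating the black pebbling number of directed acyclic graphs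
with a single sink in which every node has at most two in-neighbours is `NP`-hard within the factor
`c`: for every language `L` in `NP` there is a polynomial-time function `g` that maps every word `x`
to such a graph `G` with the sink `t` and a number `s` such that `G` has pebbling number at most `s`
if `x` is in `L`, and pebbling number more than `c * s` if `x` is not in `L`. -/
theorem result : ∃ c : ℝ, 1 < c ∧ ∀ L : Set (List Bool), InNP L →
    ∃ g : List Bool → List Bool, PolyTime g ∧
      ∀ x, ∃ (G : List (List ℕ)) (t s : ℕ), g x = bits (G, t, s) ∧ IsInstance G t ∧
        (∀ l ∈ G, l.length ≤ 2) ∧ (x ∈ L → Peb G t ≤ s) ∧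
        (x ∉ L → c * (s : ℝ) < Peb G t) :=
  hardB

end Pool.Agent.Results.MP_ecb870_lc.IndegTwoNPHard
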